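import Mathlib

/-!
# Ordinary primes of modular forms of weight `≥ 4` : definitions

Everything is formal: power series in `s` (suffix `S`) and in `ξ` (suffix `X`).
The analytic side uses `Conv` (coefficients of a series converging in the open unit disc) and the
value `ev`.  See `PLAN.md` for the complete proof.
-/

namespace Run7.h635.ORD

open PowerSeries

noncomputable section

/-! ### Formal side -/

/-- the derivation `X d/dX`. -/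
def dl (f : ℚ⟦X⟧) : ℚ⟦X⟧ := X * d⁄dX ℚ f

/-- `p(s) = ∑ C(2n,n)² s^{2n}`. -/
def pS : ℚ⟦X⟧ := mk fun n => if Even n then ((n / 2).centralBinom : ℚ) ^ 2 else 0

/-- `e(s) = 1 - 16 s²`. -/
def eS : ℚ⟦X⟧ := 1 - 16 * X ^ 2

/-- `κ(s) = (1 - 16 s²) ∑ n C(2n,n)² s^{2n}`. -/
def kS : ℚ⟦X⟧ :=
  eS * mk fun n => if Even n then ((n / 2 : ℕ) : ℚ) * ((n / 2).centralBinom : ℚ) ^ 2 else 0

/-- the polynomial `h` as a power series in `s`. -/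
def hS (h : Polynomial ℤ) : ℚ⟦X⟧ := Polynomial.aeval (X : ℚ⟦X⟧) h

/-- `F(s)`: `δ F = s h p^w`, `F(0) = 0`. -/
def FS (w : ℕ) (h : Polynomial ℤ) : ℚ⟦X⟧ := mk fun n => coeff n (X * hS h * pS ^ w) / n

/-- indices of the monomials `F^i p^a κ^b`, `a + b = w (K - i)`. -/
abbrev Mon (w K : ℕ) := Σ i : Fin (K + 1), Fin (w * (K - i) + 1)

/-- the monomials `F^i p^a κ^b`, `a + b = w (K - i)`. -/
def mon (w : ℕ) (h : Polynomial ℤ) (K : ℕ) (j : Mon w K) : ℚ⟦X⟧ :=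
  FS w h ^ (j.1 : ℕ) * pS ^ (j.2 : ℕ) * kS ^ (w * (K - j.1) - j.2)

/-- indices of the rows of the determinant -/
abbrev Row (w K D : ℕ) := Fin D × Mon w K

/-- the rows of the determinant, `s^l F^i p^a κ^b`. -/
def row (w : ℕ) (h : Polynomial ℤ) (K D : ℕ) (r : Row w K D) : ℚ⟦X⟧ :=
  X ^ (r.1 : ℕ) * mon w h K r.2

/-- the number of monomials -/
def mm (w K : ℕ) : ℕ := Fintype.card (Mon w K)

/-- `h` is even. -/
def EvenPoly (h : Polynomial ℤ) : Prop := ∀ n, Odd n → h.coeff n = 0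

/-- `T(q) = ∑_{n ∈ ℤ} q^{n²}`. -/
def Tq : ℚ⟦X⟧ := mk fun n => if n = 0 then 1 else if IsSquare n then 2 else 0

/-- `S(q) = ∑_{n ≥ 0} q^{n(n+1)}`. -/
def Sq : ℚ⟦X⟧ := mk fun n => if (∃ k < n + 1, k * (k + 1) = n) then 1 else 0

/-- `f(X) ↦ f(X²)`. -/
def dil : ℚ⟦X⟧ →ₐ[ℚ] ℚ⟦X⟧ := expand 2 two_ne_zero

/-- `f(X) ↦ f(-X)`. -/
def neg1 : ℚ⟦X⟧ →+* ℚ⟦X⟧ := rescale (-1)

/-- `P(ξ) = T(ξ²)²`. -/
def PX : ℚ⟦X⟧ := dil Tq ^ 2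

/-- `V(ξ) = T(-ξ²)²`. -/
def VX : ℚ⟦X⟧ := dil (neg1 Tq) ^ 2

/-- `s(ξ) = ξ S(ξ²)²/T(ξ²)²`. -/
def sX : ℚ⟦X⟧ := X * dil Sq ^ 2 * (PX)⁻¹

/-- `e = 1 - 16 s²`. -/
def eX : ℚ⟦X⟧ := 1 - 16 * sX ^ 2

/-- `κ = ∂P/(2P²)`. -/
def kX : ℚ⟦X⟧ := dl PX * (2 * PX ^ 2)⁻¹

/-- the modular form `f = P^{w+2} s e h(s)`. -/
def fX (w : ℕ) (h : Polynomial ℤ) : ℚ⟦X⟧ := PX ^ (w + 2) * sX * eX * Polynomial.aeval sX h

/-- `F(ξ) = ∑ a_n ξ^n / n`. -/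
def FX (w : ℕ) (h : Polynomial ℤ) : ℚ⟦X⟧ := mk fun n => coeff n (fX w h) / n

/-- `t = V/(4P)`, the image of `s` under `v ↦ 1/v`. -/
def tX : ℚ⟦X⟧ := VX * (4 * PX)⁻¹

/-- `g = 4 s² P^{w+1} V h(V/(4P))`, `f(1/v) = v^{w+2} g(v)`. -/
def gX (w : ℕ) (h : Polynomial ℤ) : ℚ⟦X⟧ :=
  4 * sX ^ 2 * PX ^ (w + 1) * VX * Polynomial.aeval tX h

/-! ### Analytic side -/

section
variable {𝕜 : Type} [RCLike 𝕜]

/-- the power series converges (absolutely) in the open unit disc. -/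
def Conv (f : 𝕜⟦X⟧) : Prop :=
  ∀ r : ℝ, 0 ≤ r → r < 1 → Summable fun n => ‖coeff n f‖ * r ^ n

/-- its value. -/
def ev (f : 𝕜⟦X⟧) (z : 𝕜) : 𝕜 := ∑' n, coeff n f * z ^ n

/-- a rational power series as a power series over `𝕜`. -/
def up (𝕜 : Type) [RCLike 𝕜] : ℚ⟦X⟧ →+* 𝕜⟦X⟧ := PowerSeries.map (algebraMap ℚ 𝕜)

end

/-- `ξ(v) = exp(-π v/2)`. -/
def xi (v : ℝ) : ℝ := Real.exp (-(Real.pi * v / 2))

/-! ### Arithmetic side -/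

/-- The primes outside `O` are 'non-ordinary' for `(w, h)`: no pole before `p²`. -/
def NonOrd (w : ℕ) (h : Polynomial ℤ) (O : Set ℕ) : Prop :=
  ∀ p : ℕ, p.Prime → p ≠ 2 → p ∉ O → ∀ n < p ^ 2, padicNorm p (coeff n (FS w h)) ≤ 1

/-- the number of primes `≤ x` in `O`. -/
def cnt (O : Set ℕ) (x : ℕ) : ℕ := by
  classical exact ((Finset.range (x + 1)).filter fun p => p.Prime ∧ p ∈ O).card

/-- positive lower density among the primes. -/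
def PosLower (O : Set ℕ) : Prop :=
  ∃ δ : ℝ, 0 < δ ∧ ∀ᶠ x : ℕ in Filter.atTop, δ * (Nat.primeCounting x : ℝ) ≤ (cnt O x : ℝ)

end

end Run7.h635.ORD
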