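import Pool.Agent.Run7.h635.ORD.Defs

/-!
# Ordinary primes: closed statements of the pieces

Every piece `XX` is a proposition `S_XX`; its file `Pool/Agent/Run7/h635/ORD/XX.lean` proves
`theorem xx (dependencies : S_YY) ... : S_XX`.  The complete proof is in `PLAN.md`.
-/

namespace Run7.h635.ORD

open PowerSeries Filter Topology

noncomputable section

/-! ### Formal pieces, variable `s` -/

/-- BF: the formal differential equations in `s`. -/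
structure S_BF : Prop where
  dl_pS : eS * dl pS = 2 * kS
  dl_kS : dl kS = 8 * X ^ 2 * pS
  dl_FS : ∀ w h, dl (FS w h) = X * hS h * pS ^ w
  FS_zero : ∀ w h, coeff 0 (FS w h) = 0
  pS_zero : coeff 0 pS = 1
  kS_zero : coeff 0 kS = 0
  pS_int : ∃ f : ℤ⟦X⟧, pS = PowerSeries.map (Int.castRingHom ℚ) f
  kS_int : ∃ f : ℤ⟦X⟧, kS = PowerSeries.map (Int.castRingHom ℚ) f

/-- ZE: general zero estimate for solutions of `e δ f = A f` with `A(0)` nilpotent. -/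
def S_ZE : Prop :=
  ∀ (ι : Type) [Fintype ι] [DecidableEq ι] (e : Polynomial ℚ) (_ : e.coeff 0 = 1)
    (f : ι → ℚ⟦X⟧) (A : Matrix ι ι (Polynomial ℚ))
    (_ : ∀ i, (e : ℚ⟦X⟧) * dl (f i) = ∑ j, (A i j : ℚ⟦X⟧) * f j)
    (_ : IsNilpotent (A.map fun q => q.coeff 0))
    (_ : ∀ Q : ι → Polynomial ℚ, ∑ i, (Q i : ℚ⟦X⟧) * f i = 0 → Q = 0),
    ∃ C : ℕ, ∀ D : ℕ, ∀ Q : ι → Polynomial ℚ, (∀ i, (Q i).degree < D) → Q ≠ 0 →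
      ∃ n < Fintype.card ι * D + C, coeff n (∑ i, (Q i : ℚ⟦X⟧) * f i) ≠ 0

/-- independence of the monomials over the polynomials. -/
def Indep (w : ℕ) (h : Polynomial ℤ) : Prop :=
  ∀ (K : ℕ) (Q : Mon w K → Polynomial ℚ), ∑ j, (Q j : ℚ⟦X⟧) * mon w h K j = 0 → Q = 0

/-- ZA: the zero estimate for the rows. -/
def S_ZA : Prop :=
  ∀ (w : ℕ) (h : Polynomial ℤ), Indep w h → ∀ K : ℕ, ∃ C : ℕ, ∀ D : ℕ, ∀ c : Row w K D → ℚ,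
    c ≠ 0 → ∃ n < mm w K * D + C, ∑ r, c r * coeff n (row w h K D r) ≠ 0

/-- TA: 2-adic structure of `F`. -/
def S_TA : Prop :=
  ∀ (w : ℕ) (h : Polynomial ℤ), EvenPoly h → ∃ (γ : ℕ → ℚ⟦X⟧) (C : ℕ),
    FS w h = ∑ c ∈ Finset.range (w + 1), γ c * pS ^ c * kS ^ (w - c) ∧
    ∀ c n, padicNorm 2 (coeff n (γ c)) ≤ (2 : ℚ) ^ ((C : ℤ) - 2 * n)

/-- TD: the 2-adic determinant (general). -/
def S_TD : Prop :=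
  ∀ (N e Q C : ℕ) (_ : N = e * Q) (B : Fin e → ℚ⟦X⟧)
    (_ : ∀ j n, padicNorm 2 (coeff n (B j)) ≤ 1) (R : Fin N → ℚ⟦X⟧)
    (Γ : Fin N → Fin e → ℚ⟦X⟧) (l : Fin N → ℕ) (_ : ∀ r, R r = ∑ j, Γ r j * B j)
    (_ : ∀ r j n, padicNorm 2 (coeff n (Γ r j)) ≤ (2 : ℚ) ^ ((C : ℤ) + 2 * l r - 2 * n))
    (n : Fin N → ℕ),
    padicNorm 2 (Matrix.of fun r t => coeff (n t) (R r)).det ≤
      (2 : ℚ) ^ ((C : ℤ) * N + 2 * ∑ r, (l r : ℤ) - (e : ℤ) * Q * (Q - 1))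

/-- TR: the 2-adic bound for the rows; `D = (w K + 1) D'`. -/
def S_TR : Prop :=
  ∀ (w : ℕ) (h : Polynomial ℤ), EvenPoly h → ∀ K : ℕ, ∃ C : ℕ, ∀ D' N : ℕ,
    ∀ (E : Fin N ≃ Row w K ((w * K + 1) * D')) (n : Fin N → ℕ),
    padicNorm 2 (Matrix.of fun r t => coeff (n t) (row w h K ((w * K + 1) * D') (E r))).det ≤
      (2 : ℚ) ^ ((C : ℤ) * N
        + (mm w K : ℤ) * (((w * K + 1) * D' : ℕ) : ℤ) * ((((w * K + 1) * D' : ℕ) : ℤ) - 1)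
        - ((w * K + 1 : ℕ) : ℤ) * ((mm w K : ℤ) * D') * ((mm w K : ℤ) * D' - 1))

/-- OD: odd primes.  `lam O p n` is the exponent of the possible pole of `F_n` at `p`. -/
def lam (O : Set ℕ) (p n : ℕ) : ℕ := by
  classical exact if p ∈ O ∨ p ^ 2 ≤ n then Nat.log p n else 0

def S_OD : Prop :=
  ∀ (w : ℕ) (h : Polynomial ℤ) (O : Set ℕ), NonOrd w h O → ∀ (K D N : ℕ)
    (E : Fin N ≃ Row w K D) (n : Fin N → ℕ) (L : ℕ) (_ : ∀ t, n t ≤ L) (p : ℕ), p.Prime → p ≠ 2 →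
    padicNorm p (Matrix.of fun r t => coeff (n t) (row w h K D (E r))).det ≤
      (p : ℚ) ^ (K * N * lam O p L)

/-! ### Formal pieces, variable `ξ` -/

/-- TH: the formal Landen identities. -/
structure S_TH : Prop where
  landen : Tq ^ 2 = dil Tq ^ 2 + 4 * X * dil Sq ^ 2
  SS : Sq ^ 2 = dil Sq * dil Tq
  TT : Tq * neg1 Tq = dil (neg1 Tq) ^ 2

/-- FJ: the differential equations in `ξ`. -/
structure S_FJ : Prop where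
  VX_sq : VX ^ 2 = eX * PX ^ 2
  dl_sX : dl sX = sX * eX * PX ^ 2
  dl_kX : dl kX = 8 * sX ^ 2 * eX * PX ^ 3
  PX_zero : coeff 0 PX = 1
  sX_zero : coeff 0 sX = 0
  sX_one : coeff 1 sX = 1
  sX_int : ∃ f : ℤ⟦X⟧, sX = PowerSeries.map (Int.castRingHom ℚ) f

/-- SU: substitution `s = s(ξ)`. -/
def S_SU : Prop :=
  ∃ Θ : ℚ⟦X⟧ →+* ℚ⟦X⟧, Θ X = sX ∧ Θ pS = PX ∧ Θ kS = kX ∧ (∀ w h, Θ (FS w h) = FX w h) ∧
    (∀ a : ℚ, Θ (C a) = C a) ∧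
    ∀ G n, coeff n (Θ G) = ∑ k ∈ Finset.range (n + 1), coeff k G * coeff n (sX ^ k)

/-! ### Analytic library -/

/-- EV: power series converging in the open unit disc, over `ℝ` or `ℂ`. -/
structure EVlib (𝕜 : Type) [RCLike 𝕜] : Prop where
  conv_C : ∀ a : 𝕜, Conv (C a : 𝕜⟦X⟧)
  conv_X : Conv (X : 𝕜⟦X⟧)
  conv_add : ∀ f g : 𝕜⟦X⟧, Conv f → Conv g → Conv (f + g)
  conv_sub : ∀ f g : 𝕜⟦X⟧, Conv f → Conv g → Conv (f - g)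
  conv_neg : ∀ f : 𝕜⟦X⟧, Conv f → Conv (-f)
  conv_mul : ∀ f g : 𝕜⟦X⟧, Conv f → Conv g → Conv (f * g)
  conv_pow : ∀ (f : 𝕜⟦X⟧) (n : ℕ), Conv f → Conv (f ^ n)
  conv_sum : ∀ (ι : Type) (s : Finset ι) (f : ι → 𝕜⟦X⟧), (∀ i ∈ s, Conv (f i)) →
    Conv (∑ i ∈ s, f i)
  conv_aeval : ∀ (h : Polynomial ℤ) (f : 𝕜⟦X⟧), Conv f → Conv (Polynomial.aeval f h)
  conv_deriv : ∀ f : 𝕜⟦X⟧, Conv f → Conv (d⁄dX 𝕜 f)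
  conv_div : ∀ (f : 𝕜⟦X⟧) (k : ℕ), Conv f → Conv (mk fun n => coeff n f / (n : 𝕜) ^ k)
  conv_dil : ∀ f : 𝕜⟦X⟧, Conv f → Conv (expand 2 two_ne_zero f)
  conv_neg1 : ∀ f : 𝕜⟦X⟧, Conv f → Conv (rescale (-1) f)
  /-- a cheap criterion -/
  conv_of_bdd : ∀ (f : 𝕜⟦X⟧) (B : ℝ), (∀ n, ‖coeff n f‖ ≤ B) → Conv f
  ev_C : ∀ (a z : 𝕜), ev (C a) z = a
  ev_X : ∀ z : 𝕜, ev (X : 𝕜⟦X⟧) z = z
  ev_add : ∀ (f g : 𝕜⟦X⟧) (z : 𝕜), Conv f → Conv g → ‖z‖ < 1 → ev (f + g) z = ev f z + ev g z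
  ev_sub : ∀ (f g : 𝕜⟦X⟧) (z : 𝕜), Conv f → Conv g → ‖z‖ < 1 → ev (f - g) z = ev f z - ev g z
  ev_neg : ∀ (f : 𝕜⟦X⟧) (z : 𝕜), ev (-f) z = -ev f z
  ev_mul : ∀ (f g : 𝕜⟦X⟧) (z : 𝕜), Conv f → Conv g → ‖z‖ < 1 → ev (f * g) z = ev f z * ev g z
  ev_pow : ∀ (f : 𝕜⟦X⟧) (n : ℕ) (z : 𝕜), Conv f → ‖z‖ < 1 → ev (f ^ n) z = ev f z ^ n
  ev_sum : ∀ (ι : Type) (s : Finset ι) (f : ι → 𝕜⟦X⟧) (z : 𝕜), (∀ i ∈ s, Conv (f i)) → ‖z‖ < 1 →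
    ev (∑ i ∈ s, f i) z = ∑ i ∈ s, ev (f i) z
  ev_aeval : ∀ (h : Polynomial ℤ) (f : 𝕜⟦X⟧) (z : 𝕜), Conv f → ‖z‖ < 1 →
    ev (Polynomial.aeval f h) z = Polynomial.aeval (ev f z) h
  ev_dil : ∀ (f : 𝕜⟦X⟧) (z : 𝕜), Conv f → ‖z‖ < 1 → ev (expand 2 two_ne_zero f) z = ev f (z ^ 2)
  ev_neg1 : ∀ (f : 𝕜⟦X⟧) (z : 𝕜), ev (rescale (-1) f) z = ev f (-z)
  hasDerivAt : ∀ (f : 𝕜⟦X⟧) (z : 𝕜), Conv f → ‖z‖ < 1 → HasDerivAt (ev f) (ev (d⁄dX 𝕜 f) z) z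
  ev_bound : ∀ (f : 𝕜⟦X⟧) (r : ℝ), Conv f → 0 ≤ r → r < 1 →
    ∃ B : ℝ, ∀ z : 𝕜, ‖z‖ ≤ r → ‖ev f z‖ ≤ B
  ev_zero : ∀ f : 𝕜⟦X⟧, ev f 0 = coeff 0 f
  /-- identity theorem on a sequence of small positive reals -/
  ev_inj : ∀ f g : 𝕜⟦X⟧, Conv f → Conv g →
    (∀ᶠ x : ℝ in 𝓝[>] 0, ev f (x : 𝕜) = ev g (x : 𝕜)) → f = g

/-- EC: complex part of the library, and comparison of `ℝ` and `ℂ`. -/
structure EClib : Prop where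
  cauchy : ∀ (f : ℂ⟦X⟧) (r M : ℝ) (n : ℕ), Conv f → 0 < r → r < 1 →
    (∀ z : ℂ, ‖z‖ = r → ‖ev f z‖ ≤ M) → ‖coeff n f‖ ≤ M / r ^ n
  conv_inv : ∀ f : ℂ⟦X⟧, Conv f → (∀ z : ℂ, ‖z‖ < 1 → ev f z ≠ 0) → Conv f⁻¹
  conv_up : ∀ f : ℚ⟦X⟧, Conv (up ℝ f) ↔ Conv (up ℂ f)
  ev_up : ∀ (f : ℚ⟦X⟧) (x : ℝ), ev (up ℂ f) (x : ℂ) = ((ev (up ℝ f) x : ℝ) : ℂ)

/-- AN: the theta functions in the disc. -/
structure S_AN : Prop where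
  conv_T : Conv (up ℂ Tq)
  conv_S : Conv (up ℂ Sq)
  T_ne : ∀ z : ℂ, ‖z‖ < 1 → ev (up ℂ Tq) z ≠ 0
  conv_P : Conv (up ℂ PX)
  conv_Pinv : Conv (up ℂ PX⁻¹)
  conv_s : Conv (up ℂ sX)
  conv_k : Conv (up ℂ kX)
  conv_V : Conv (up ℂ VX)
  conv_t : Conv (up ℂ tX)
  conv_f : ∀ w h, Conv (up ℂ (fX w h))
  conv_F : ∀ w h, Conv (up ℂ (FX w h))
  conv_g : ∀ w h, Conv (up ℂ (gX w h))
  bound_P : ∀ z : ℂ, ‖z‖ < 1 → ‖ev (up ℂ PX) z‖ ≤ 4 / (1 - ‖z‖) ^ 2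
  bound_Ps : ∀ z : ℂ, ‖z‖ < 1 → ‖ev (up ℂ PX) z * ev (up ℂ sX) z‖ ≤ 4 / (1 - ‖z‖) ^ 2

/-- AR: the archimedean bound for the first nonzero coefficient of a combination of rows. -/
def S_AR : Prop :=
  ∀ (w : ℕ) (h : Polynomial ℤ) (K : ℕ) (ρ : ℝ), 0 < ρ → ρ < 1 → ∃ M : ℝ, 1 ≤ M ∧
    ∀ (D N : ℕ) (E : Fin N ≃ Row w K D) (c : Fin N → ℝ), ∑ r, c r ^ 2 = 1 → ∀ n : ℕ,
      (∀ k < n, ∑ r, c r * ((coeff k (row w h K D (E r)) : ℚ) : ℝ) = 0) →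
      |∑ r, c r * ((coeff n (row w h K D (E r)) : ℚ) : ℝ)| ≤
        N * M * (4 / (1 - ρ) ^ 2) ^ D * (1 / ρ) ^ n

/-! ### Independence -/

/-- values on the imaginary axis -/
def rv (f : ℚ⟦X⟧) (v : ℝ) : ℝ := ev (up ℝ f) (xi v)

/-- IT: transformation under `v ↦ 1/v` and positivity. -/
structure S_IT : Prop where
  P_inv : ∀ v : ℝ, 0 < v → rv PX v⁻¹ = v * rv PX v
  s_inv : ∀ v : ℝ, 0 < v → rv sX v⁻¹ = rv tX v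
  k_inv : ∀ v : ℝ, 0 < v → rv kX v⁻¹ = 1 / (Real.pi * rv PX v) - v * rv kX v
  f_inv : ∀ (w : ℕ) (h : Polynomial ℤ) (v : ℝ), 0 < v →
    rv (fX w h) v⁻¹ = v ^ (w + 2) * rv (gX w h) v
  P_one : ∀ v : ℝ, 0 < v → 1 ≤ rv PX v
  s_pos : ∀ v : ℝ, 0 < v → 0 < rv sX v ∧ rv sX v < 1 / 4
  f_pos : ∀ (w : ℕ) (h : Polynomial ℤ), (∀ x : ℝ, 0 < x → x < 1 / 4 → 0 < Polynomial.aeval x h) →
    ∀ v : ℝ, 0 < v → 0 < rv (fX w h) v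

/-- `Λ_k = (π/2) ∑ g_n ξ^n/(π n/2)^k`. -/
def LamX (w : ℕ) (h : Polynomial ℤ) (k : ℕ) : ℝ⟦X⟧ :=
  mk fun n => (Real.pi / 2) * ((coeff n (gX w h) : ℚ) : ℝ) / (Real.pi * n / 2) ^ k

/-- IE: the Eichler integral: `F(1/v) = c - ∑_{j ≤ w} v^j (w!/j!) Λ_{w-j+1}(v)`, and the growth
of `z(u) = c - w! Λ_{w+1}(u)`. -/
def S_IE : Prop :=
  ∀ (w : ℕ) (h : Polynomial ℤ), 2 ≤ w →
    (∀ x : ℝ, 0 < x → x < 1 / 4 → 0 < Polynomial.aeval x h) →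
    (∀ k, Conv (LamX w h k)) ∧
    ∃ c : ℝ,
      (∀ v : ℝ, 0 < v → rv (FX w h) v⁻¹ =
        c - ∑ j ∈ Finset.range (w + 1),
          v ^ j * ((w.factorial : ℝ) / (j.factorial : ℝ) * ev (LamX w h (w - j + 1)) (xi v))) ∧
      ∃ ε : ℝ, 0 < ε ∧ ∀ u : ℝ, 0 < u → u ≤ 1 →
        ε * u ≤ c - w.factorial * ev (LamX w h (w + 1)) (xi u) ∧
        c - w.factorial * ev (LamX w h (w + 1)) (xi u) ≤ c

/-- IP: a polynomial in `v` whose coefficients are convergent series in `ξ = exp(-πv/2)` and which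
vanishes for all `v > 0` is zero. -/
def S_IP : Prop :=
  ∀ R : Polynomial ℝ⟦X⟧, (∀ j, Conv (R.coeff j)) →
    (∀ v : ℝ, 0 < v → ∑ j ∈ Finset.range (R.natDegree + 1), v ^ j * ev (R.coeff j) (xi v) = 0) →
    R = 0

/-- IG: an exponentially small `s` and a polynomially growing `y` satisfy no algebraic relation. -/
def S_IG : Prop :=
  ∀ (k : ℕ) (Q : ℕ → Polynomial ℚ) (s y : ℝ → ℝ) (M : ℕ),
    (∀ v : ℝ, 1 ≤ v → 0 < s v) → (∀ m : ℕ, Tendsto (fun v => s v * v ^ m) atTop (𝓝 0)) →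
    Tendsto y atTop atTop → (∃ B : ℝ, ∀ v : ℝ, 1 ≤ v → y v ≤ B * v ^ M) →
    (∀ v : ℝ, 1 ≤ v → ∑ i ∈ Finset.range k, Polynomial.aeval (s v) (Q i) * y v ^ i = 0) →
    ∀ i < k, Q i = 0

/-- IN: independence. -/
def S_IN : Prop :=
  ∀ (w : ℕ) (h : Polynomial ℤ), 2 ≤ w →
    (∀ x : ℝ, 0 < x → x < 1 / 4 → 0 < Polynomial.aeval x h) → Indep w h

/-! ### The main theorem -/

/-- GM: the main theorem. -/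
def S_GM : Prop :=
  ∀ (w : ℕ) (h : Polynomial ℤ), 2 ≤ w → EvenPoly h →
    (∀ x : ℝ, 0 < x → x < 1 / 4 → 0 < Polynomial.aeval x h) →
    ∀ O : Set ℕ, NonOrd w h O → PosLower O

/-! ### Applications: the rigid Calabi-Yau threefold of level 8 -/

/-- `h_n = ∑_k C(2k,k)² C(2(n-k),n-k)²`. -/
def h8 (n : ℕ) : ℕ :=
  ∑ k ∈ Finset.range (n + 1), k.centralBinom ^ 2 * (n - k).centralBinom ^ 2

/-- coefficients of `η(2τ)⁴η(4τ)⁴ = q ∏ (1 - q^{2n})⁴ (1 - q^{4n})⁴`. -/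
def a8 (n : ℕ) : ℤ :=
  coeff n ((X : ℤ⟦X⟧) * ∏ k ∈ Finset.range n, ((1 - X ^ (2 * (k + 1))) ^ 4 *
    (1 - X ^ (4 * (k + 1))) ^ 4))

/-- LU: Lucas congruences. -/
def S_LU : Prop := NonOrd 2 1 {p | ¬ p ∣ h8 ((p - 1) / 2)}

/-- EP: the eta product. -/
def S_EP : Prop := ∀ n, (a8 n : ℚ) = coeff n (fX 2 1)

/-- AP: `a_p ≡ h_{(p-1)/2}`. -/
def S_AP : Prop := ∀ p : ℕ, p.Prime → p ≠ 2 → (a8 p : ZMod p) = (h8 ((p - 1) / 2) : ZMod p)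

/-- PC: the number of points on `w² = xyz(1+x)(1+y)(1+z)(1+xyz)` over `𝔽_p`. -/
def S_PC : Prop := ∀ p : ℕ, [Fact p.Prime] → p ≠ 2 →
  ((Fintype.card {v : Fin 4 → ZMod p // v 0 ^ 2 = v 1 * v 2 * v 3 * (1 + v 1) * (1 + v 2) *
    (1 + v 3) * (1 + v 1 * v 2 * v 3)} : ℕ) : ZMod p) = -(h8 ((p - 1) / 2) : ZMod p)

/-! ### Applications: Ramanujan's `τ` -/

/-- Ramanujan's `τ`: `∑ τ(n) q^n = q ∏ (1 - q^n)^24`. -/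
def tau (n : ℕ) : ℤ :=
  coeff n ((X : ℤ⟦X⟧) * ∏ k ∈ Finset.range n, (1 - X ^ (k + 1)) ^ 24)

/-- the polynomial for the odd part of `Δ`: `(1-16s²)((1-4s)⁶+(1+4s)⁶)/2`. -/
def hD : Polynomial ℤ :=
  (1 - 16 * Polynomial.X ^ 2) *
    (1 + 15 * 16 * Polynomial.X ^ 2 + 15 * 256 * Polynomial.X ^ 4 + 4096 * Polynomial.X ^ 6)

/-- HE: Hecke's relation modulo `p`. -/
def S_HE : Prop := ∀ p : ℕ, p.Prime → (p : ℤ) ∣ tau p → ∀ n, (p : ℤ) ∣ tau (p * n)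

/-- DT: the odd part of `Δ` is `f`. -/
def S_DT : Prop := ∀ n, coeff n (fX 10 hD) = if Odd n then (tau n : ℚ) else 0

/-- DN -/
def S_DN : Prop := NonOrd 10 hD {p | ¬ (p : ℤ) ∣ tau p}

end

end Run7.h635.ORD
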